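import Pool.Agent.helper78.HFN.Spec

set_option autoImplicit false

open Polynomial Module

namespace Pool.Agent.HFN

noncomputable section

open Filter Topology

/-- a sequence of natural numbers whose inverses converge -/
theorem CPT_seq (u : ℕ → ℕ) (α : ℝ) (h : Tendsto (fun k => 1 / ((u k : ℝ) + 1)) atTop (𝓝 α)) :
    (∃ a : ℕ, ∀ᶠ k in atTop, u k = a) ∨ Tendsto (fun k => (u k : ℝ)) atTop atTop := by
  have hα : 0 ≤ α := ge_of_tendsto' h fun k => by positivity
  rcases hα.eq_or_lt with h0 | h0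
  · right
    have h1 : Tendsto (fun k => 1 / ((u k : ℝ) + 1)) atTop (𝓝[>] 0) := by
      rw [tendsto_nhdsWithin_iff]
      refine ⟨by rw [h0]; exact h, Eventually.of_forall fun k => ?_⟩
      have : (0 : ℝ) < 1 / ((u k : ℝ) + 1) := by positivity
      exact this
    have h2 := h1.inv_tendsto_nhdsGT_zero
    have h3 : Tendsto (fun k => (u k : ℝ) + 1) atTop atTop := by
      refine h2.congr fun k => ?_
      simp
    have h4 := tendsto_atTop_add_const_right atTop (-1 : ℝ) h3
    refine h4.congr fun k => ?_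
    ring
  · left
    have h1 : Tendsto (fun k => (u k : ℝ)) atTop (𝓝 (α⁻¹ - 1)) := by
      have h2 := (h.inv₀ h0.ne').sub_const 1
      refine h2.congr fun k => ?_
      simp
    have h2 := (Metric.tendsto_atTop.1 h1) (1 / 2) (by norm_num)
    obtain ⟨K, hK⟩ := h2
    refine ⟨u K, eventually_atTop.2 ⟨K, fun k hk => ?_⟩⟩
    have h3 := hK k hk
    have h4 := hK K le_rfl
    rw [Real.dist_eq, abs_lt] at h3 h4
    have h5 : (u k : ℝ) < u K + 1 := by linarith
    have h6 : (u K : ℝ) < u k + 1 := by linarith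
    have h7 : u k < u K + 1 := by exact_mod_cast h5
    have h8 : u K < u k + 1 := by exact_mod_cast h6
    omega

theorem CPT_ty {a b : ℕ} (h : Ty a b) {x y : ℝ} (hx : 0 < x) (hy : 0 < y) : min x y ≤ x * b + y * a := by
  rcases h with ⟨h1, h2⟩ | ⟨h1, h2⟩ | ⟨h1, h2⟩
  · subst h1 h2
    simp
  · subst h1 h2
    simp
  · have h3 : (1 : ℝ) ≤ a := by exact_mod_cast h1
    have h4 : (1 : ℝ) ≤ b := by exact_mod_cast h2
    have h5 : x ≤ x * b := by nlinarith
    have h6 : 0 ≤ y * a := by positivity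
    have := min_le_left x y
    linarith

/-- the items in decreasing order, with zeros added -/
theorem CPT_sort (m : ℕ) (a b : Fin m → ℕ) (ν : Fin m → ℝ) (hT : ∀ t, Ty (a t) (b t)) (hν : ∀ t, 0 ≤ ν t) (hs : ∑ t, ν t ≤ 1) :
    ∃ (A B : ℕ → ℕ) (N : ℕ → ℝ), (∀ j, Ty (A j) (B j)) ∧ (∀ j, 0 ≤ N j) ∧ (∀ J, ∑ j ∈ Finset.range J, N j ≤ 1) ∧
      (∀ j : ℕ, ((j : ℝ) + 1) * N j ≤ 1) ∧
      ∀ f : ℕ → ℕ → ℝ → ℝ, (∀ p q, f p q 0 = 0) → ∀ J : ℕ, (∀ j, J ≤ j → f (A j) (B j) (N j) = 0) →
        ∑ t, f (a t) (b t) (ν t) = ∑ j ∈ Finset.range J, f (A j) (B j) (N j) := by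
  set e : Equiv.Perm (Fin m) := Tuple.sort (fun t => - ν t) with he
  have hmono : Monotone ((fun t => - ν t) ∘ e) := Tuple.monotone_sort _
  set A : ℕ → ℕ := fun j => if h : j < m then a (e ⟨j, h⟩) else 1 with hA
  set B : ℕ → ℕ := fun j => if h : j < m then b (e ⟨j, h⟩) else 0 with hB
  set N : ℕ → ℝ := fun j => if h : j < m then ν (e ⟨j, h⟩) else 0 with hN
  have hsum : ∀ f : ℕ → ℕ → ℝ → ℝ, ∑ t, f (a t) (b t) (ν t) = ∑ j ∈ Finset.range m, f (A j) (B j) (N j) := by
    intro f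
    rw [Finset.sum_range, ← Equiv.sum_comp e]
    refine Finset.sum_congr rfl fun t _ => ?_
    simp only [hA, hB, hN, t.2, dif_pos]
  have hN0 : ∀ j, 0 ≤ N j := by
    intro j
    simp only [hN]
    split_ifs
    · exact hν _
    · exact le_rfl
  have hNm : ∀ j, m ≤ j → N j = 0 := by
    intro j hj
    simp only [hN]
    rw [dif_neg (by omega)]
  have hpart : ∀ J, ∑ j ∈ Finset.range J, N j ≤ 1 := by
    intro J
    have h1 := hsum (fun _ _ z => z)
    have h2 : ∑ j ∈ Finset.range J, N j ≤ ∑ j ∈ Finset.range m, N j := by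
      rcases le_total J m with h | h
      · exact Finset.sum_le_sum_of_subset_of_nonneg (Finset.range_mono h) fun j _ _ => hN0 j
      · refine le_of_eq (Finset.sum_subset (Finset.range_mono h) fun j _ hj => ?_).symm
        rw [Finset.mem_range] at hj
        exact hNm j (by omega)
    linarith
  have hanti : ∀ i j, i ≤ j → N j ≤ N i := by
    intro i j hij
    by_cases hj : j < m
    · have hi : i < m := by omega
      have := hmono (show (⟨i, hi⟩ : Fin m) ≤ ⟨j, hj⟩ from hij)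
      simp only [Function.comp_apply, neg_le_neg_iff] at this
      simp only [hN]
      rw [dif_pos hj, dif_pos hi]
      exact this
    · rw [hNm j (by omega)]
      exact hN0 i
  refine ⟨A, B, N, ?_, hN0, hpart, ?_, ?_⟩
  · intro j
    simp only [hA, hB]
    split_ifs
    · exact hT _
    · exact Or.inl ⟨rfl, rfl⟩
  · intro j
    refine le_trans ?_ (hpart (j + 1))
    have h1 : ∑ i ∈ Finset.range (j + 1), N j ≤ ∑ i ∈ Finset.range (j + 1), N i :=
      Finset.sum_le_sum fun i hi => hanti i j (by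
        rw [Finset.mem_range] at hi
        omega)
    rw [Finset.sum_const, Finset.card_range, nsmul_eq_mul] at h1
    push_cast at h1
    exact h1
  · intro f hf J hJ
    rw [hsum f]
    rcases le_total J m with h | h
    · refine (Finset.sum_subset (Finset.range_mono h) fun j _ hj => ?_).symm
      rw [Finset.mem_range] at hj
      exact hJ j (by omega)
    · refine Finset.sum_subset (Finset.range_mono h) fun j _ hj => ?_
      rw [Finset.mem_range] at hj
      rw [hNm j (by omega), hf]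

theorem CPT (hPHI : PHI_stmt) : CPT_stmt := by
  classical
  intro m a b ν hT hν hs
  obtain ⟨-, hz, -, -⟩ := hPHI
  choose A B N hAB hN hpart hdec hsum using fun k => CPT_sort (m k) (a k) (b k) (ν k) (hT k) (hν k) (hs k)
  have hN1 : ∀ k j, N k j ≤ 1 := by
    intro k j
    have h1 := hdec k j
    have h2 := hN k j
    nlinarith [mul_nonneg (Nat.cast_nonneg (α := ℝ) j) h2]
  -- compactness
  set P : ℕ → ℕ → ℝ × ℝ × ℝ := fun k j => (N k j, 1 / ((A k j : ℝ) + 1), 1 / ((B k j : ℝ) + 1)) with hP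
  set S : Set (ℕ → ℝ × ℝ × ℝ) := Set.pi Set.univ fun _ => Set.Icc 0 1 ×ˢ (Set.Icc 0 1 ×ˢ Set.Icc 0 1) with hS
  have hcomp : IsCompact S := isCompact_univ_pi fun _ => isCompact_Icc.prod (isCompact_Icc.prod isCompact_Icc)
  have hinv : ∀ n : ℕ, 0 ≤ 1 / ((n : ℝ) + 1) ∧ 1 / ((n : ℝ) + 1) ≤ 1 := by
    intro n
    refine ⟨by positivity, ?_⟩
    rw [div_le_one (by positivity)]
    have : (0 : ℝ) ≤ n := Nat.cast_nonneg n
    linarith
  have hPS : ∀ k, P k ∈ S := by
    intro k j _
    exact ⟨⟨hN k j, hN1 k j⟩, ⟨hinv _, hinv _⟩⟩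
  obtain ⟨l, -, s, hs', hl⟩ := hcomp.tendsto_subseq hPS
  have hlj : ∀ j, Tendsto (fun k => P (s k) j) atTop (𝓝 (l j)) := fun j => by
    have := (tendsto_pi_nhds.1 hl) j
    exact this
  have hNl : ∀ j, Tendsto (fun k => N (s k) j) atTop (𝓝 (l j).1) := fun j =>
    (continuous_fst.tendsto _).comp (hlj j)
  have hAl : ∀ j, Tendsto (fun k => 1 / ((A (s k) j : ℝ) + 1)) atTop (𝓝 (l j).2.1) := fun j =>
    ((continuous_fst.comp continuous_snd).tendsto _).comp (hlj j)
  have hBl : ∀ j, Tendsto (fun k => 1 / ((B (s k) j : ℝ) + 1)) atTop (𝓝 (l j).2.2) := fun j =>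
    ((continuous_snd.comp continuous_snd).tendsto _).comp (hlj j)
  -- the limit data
  have key : ∀ j, ∃ (a' b' : ℕ) (ν' : ℝ), Ty a' b' ∧ 0 ≤ ν' ∧ ν' ≤ (l j).1 ∧ ∀ x y : ℝ, 0 < x → 0 < y →
      Tendsto (fun k => phi (A (s k) j) (B (s k) j) (N (s k) j) x y) atTop (𝓝 (phi a' b' ν' x y)) := by
    intro j
    have hl0 : 0 ≤ (l j).1 := ge_of_tendsto' (hNl j) fun k => hN _ _
    have hbig : (Tendsto (fun k => (A (s k) j : ℝ)) atTop atTop ∨ Tendsto (fun k => (B (s k) j : ℝ)) atTop atTop) →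
        ∃ (a' b' : ℕ) (ν' : ℝ), Ty a' b' ∧ 0 ≤ ν' ∧ ν' ≤ (l j).1 ∧ ∀ x y : ℝ, 0 < x → 0 < y →
          Tendsto (fun k => phi (A (s k) j) (B (s k) j) (N (s k) j) x y) atTop (𝓝 (phi a' b' ν' x y)) := by
      intro hinf
      refine ⟨1, 0, 0, Or.inl ⟨rfl, rfl⟩, le_rfl, hl0, fun x y hx hy => ?_⟩
      have h0 : phi 1 0 0 x y = 0 := hz 1 0 0 x y le_rfl (by
        push_cast
        linarith)
      rw [h0]
      refine tendsto_const_nhds.congr' ?_
      rcases hinf with h | h
      · filter_upwards [h.eventually_ge_atTop (2 / y)] with k hk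
        refine (hz _ _ _ x y (hN _ _) ?_).symm
        have h1 : 2 ≤ y * (A (s k) j : ℝ) := by
          rw [div_le_iff₀ hy] at hk
          linarith
        have h2 : 0 ≤ x * (B (s k) j : ℝ) := by positivity
        have h3 := hN1 (s k) j
        linarith
      · filter_upwards [h.eventually_ge_atTop (2 / x)] with k hk
        refine (hz _ _ _ x y (hN _ _) ?_).symm
        have h1 : 2 ≤ x * (B (s k) j : ℝ) := by
          rw [div_le_iff₀ hx] at hk
          linarith
        have h2 : 0 ≤ y * (A (s k) j : ℝ) := by positivity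
        have h3 := hN1 (s k) j
        linarith
    rcases CPT_seq _ _ (hAl j) with ⟨a', ha'⟩ | h
    · rcases CPT_seq _ _ (hBl j) with ⟨b', hb'⟩ | h
      · have hty : Ty a' b' := by
          obtain ⟨k, hk1, hk2⟩ := (ha'.and hb').exists
          rw [← hk1, ← hk2]
          exact hAB _ _
        refine ⟨a', b', (l j).1, hty, hl0, le_rfl, fun x y hx hy => ?_⟩
        have hc : Continuous fun z : ℝ => phi a' b' z x y := by
          unfold phi
          fun_prop
        have h1 := (hc.tendsto _).comp (hNl j)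
        refine h1.congr' ?_
        filter_upwards [ha', hb'] with k h2 h3
        rw [Function.comp_apply, h2, h3]
      · exact hbig (Or.inr h)
    · exact hbig (Or.inl h)
  choose a' b' ν' hty hν0 hνl hlim using key
  have hpartl : ∀ J, ∑ j ∈ Finset.range J, ν' j ≤ 1 := by
    intro J
    have h1 : Tendsto (fun k => ∑ j ∈ Finset.range J, N (s k) j) atTop (𝓝 (∑ j ∈ Finset.range J, (l j).1)) :=
      tendsto_finsetSum _ fun j _ => hNl j
    have h2 : ∑ j ∈ Finset.range J, (l j).1 ≤ 1 := le_of_tendsto' h1 fun k => hpart _ _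
    exact (Finset.sum_le_sum fun j _ => hνl j).trans h2
  have hdecl : ∀ j : ℕ, ((j : ℝ) + 1) * ν' j ≤ 1 := by
    intro j
    have h1 : Tendsto (fun k => ((j : ℝ) + 1) * N (s k) j) atTop (𝓝 (((j : ℝ) + 1) * (l j).1)) :=
      (hNl j).const_mul _
    have h2 : ((j : ℝ) + 1) * (l j).1 ≤ 1 := le_of_tendsto' h1 fun k => hdec _ _
    exact (mul_le_mul_of_nonneg_left (hνl j) (by positivity)).trans h2
  refine ⟨s, a', b', ν', hs', hty, hν0, summable_of_sum_range_le hν0 hpartl,
    Real.tsum_le_of_sum_range_le hν0 hpartl, fun x y hx hy => ?_⟩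
  -- only finitely many items matter
  set δ : ℝ := min x y with hδ
  have hδ0 : 0 < δ := lt_min hx hy
  set J : ℕ := ⌈2 / δ⌉₊ with hJ
  have hzero : ∀ (p q : ℕ) (z : ℝ) (j : ℕ), Ty p q → 0 ≤ z → ((j : ℝ) + 1) * z ≤ 1 → J ≤ j → phi p q z x y = 0 := by
    intro p q z j hpq hz0 hzj hj
    refine hz p q z x y hz0 ?_
    have h1 := CPT_ty hpq hx hy
    have h2 : 2 / δ ≤ (j : ℝ) + 1 := by
      have h3 : 2 / δ ≤ (J : ℝ) := Nat.le_ceil _
      have h4 : (J : ℝ) ≤ j := by exact_mod_cast hj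
      linarith
    rw [div_le_iff₀ hδ0] at h2
    have h5 : 2 * z ≤ (((j : ℝ) + 1) * δ) * z := mul_le_mul_of_nonneg_right h2 hz0
    have h6 : (((j : ℝ) + 1) * δ) * z = δ * (((j : ℝ) + 1) * z) := by ring
    have h7 : δ * (((j : ℝ) + 1) * z) ≤ δ * 1 := mul_le_mul_of_nonneg_left hzj hδ0.le
    linarith
  have e1 : ∀ k, ∑ t, phi (a (s k) t) (b (s k) t) (ν (s k) t) x y =
      ∑ j ∈ Finset.range J, phi (A (s k) j) (B (s k) j) (N (s k) j) x y := by
    intro k
    refine hsum (s k) (fun p q z => phi p q z x y) (fun p q => ?_) J fun j hj => ?_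
    · exact hz p q 0 x y le_rfl (by
        have : 0 ≤ x * (q : ℝ) + y * p := by positivity
        linarith)
    · exact hzero _ _ _ j (hAB _ _) (hN _ _) (hdec _ _) hj
  have e2 : ∑' t, phi (a' t) (b' t) (ν' t) x y = ∑ j ∈ Finset.range J, phi (a' j) (b' j) (ν' j) x y := by
    refine tsum_eq_sum fun j hj => ?_
    rw [Finset.mem_range] at hj
    exact hzero _ _ _ j (hty j) (hν0 j) (hdecl j) (by omega)
  simp only [e1]
  rw [e2]
  exact tendsto_finsetSum _ fun j _ => hlim j x y hx hy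

end

end Pool.Agent.HFN
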